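import Pool.Agent.H33.PP.Main
import Pool.Agent.H33.PP.OddEight

/-!
# The residues of primary pseudoperfect numbers

MP_b983a8_nt. Every primary pseudoperfect number with nine prime factors is congruent to 258 modulo
288; the residues modulo 32 and modulo 288 of a primary pseudoperfect number are determined by the
number of its prime factors.
-/

set_option autoImplicit false

namespace Pool.Agent.Results.MP_b983a8_nt.ResidueClass

open Finset

theorem result :
    (∀ N : ℕ, N.primeFactors.card = 9 →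
      (∑ p ∈ N.primeFactors, (1 : ℚ) / (p : ℚ)) + 1 / (N : ℚ) = 1 → N % 288 = 258) ∧
    ∀ N : ℕ, 1 < N → (∑ p ∈ N.primeFactors, (1 : ℚ) / (p : ℚ)) + 1 / (N : ℚ) = 1 →
      (6 ∣ N → (N : ℤ) ≡ 6 + 36 * ((N.primeFactors.card : ℤ) - 2) [ZMOD 288]) ∧
      (2 ∣ N → (N : ℤ) ≡ 4 * (N.primeFactors.card : ℤ) - 2 [ZMOD 32]) ∧
      (¬ 2 ∣ N → 8 ∣ N.primeFactors.card ∧ 16 ≤ N.primeFactors.card) := by
  refine ⟨fun N h9 h => ?_, fun N h1 h => ?_⟩
  · have h1 : 1 < N := by
      by_contra hcon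
      have h2 : N = 0 ∨ N = 1 := by omega
      rcases h2 with rfl | rfl <;> simp at h9
    exact Pool.Agent.H33.PP.IsPPN.nine ⟨h1, h⟩ h9
  · have hP : Pool.Agent.H33.PP.IsPPN N := ⟨h1, h⟩
    refine ⟨fun h6 => ?_, fun h2 => ?_, fun h2 => ⟨hP.card_odd h2, hP.card_ge h2⟩⟩
    · have h3 := hP.mod_six h6
      unfold Int.ModEq
      omega
    · have h3 := hP.mod_even h2
      unfold Int.ModEq
      omega

end Pool.Agent.Results.MP_b983a8_nt.ResidueClass
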